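import Pool.Agent.R911.Wu.Two

set_option autoImplicit false
set_option linter.unusedSectionVars false

/-!
# Main statements
-/

universe v u

open CategoryTheory CategoryTheory.Limits CategoryTheory.Abelian
open Pool.Agent.R388.CD Pool.Agent.R911.Wt

namespace Pool.Agent.R911.Wu

/-- Vanishing for pure objects implies vanishing for all objects. -/
lemma devissage_pure {D : Type u} [Category.{v} D] [Abelian D] (w : Weights D) (n : ℕ)
    (h : ∀ (a b : ℤ) (X Y : D), w.Pure a X → w.Pure b Y → ExtVanish X Y n) :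
    ∀ X Y : D, ExtVanish X Y n := by
  let _ : HasExt.{max u v} D := HasExt.standard D
  have h1 : ∀ (k : ℕ) (a b : ℤ) (X Y : D), w.ge a X → w.le (a + k) X → w.Pure b Y →
      ∀ e : Ext.{max u v} X Y n, e = 0 := by
    intro k
    induction k with
    | zero =>
      intro a b X Y hX hX' hY e
      exact h a b X Y ⟨by simpa using hX', hX⟩ hY e
    | succ k ih =>
      intro a b X Y hX hX' hY e
      obtain ⟨A, B, i, p, h0, hT, hA, hB⟩ := w.exists_seq a X
      have hi : Mono i := hT.mono_f
      have hp : Epi p := hT.epi_g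
      have h2 : (Ext.mk₀ i).comp e (zero_add n) = 0 :=
        h a b A Y ⟨hA, (w.ge a).prop_of_mono i hX⟩ hY _
      obtain ⟨e₁, he₁⟩ := Ext.contravariant_sequence_exact₂ hT Y e h2
      have hB2 : w.le (a + 1 + k) B := by
        have := (w.le _).prop_of_epi p hX'
        have e1 : a + ((k + 1 : ℕ) : ℤ) = a + 1 + k := by push_cast; ring
        rwa [e1] at this
      rw [← he₁, ih (a + 1) b B Y hB hB2 hY e₁, Ext.comp_zero]
  have h2 : ∀ (k : ℕ) (b : ℤ) (X Y : D), w.ge b Y → w.le (b + k) Y →
      ∀ e : Ext.{max u v} X Y n, e = 0 := by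
    intro k
    induction k with
    | zero =>
      intro b X Y hY hY' e
      obtain ⟨a', a, hX', hX⟩ := w.bounded X
      exact h1 (a' - a).toNat a b X Y hX (w.le_trans' (by omega) hX') ⟨by simpa using hY', hY⟩ e
    | succ k ih =>
      intro b X Y hY hY' e
      obtain ⟨A, B, i, p, h0, hT, hA, hB⟩ := w.exists_seq b Y
      have hi : Mono i := hT.mono_f
      have hp : Epi p := hT.epi_g
      have hB2 : w.le (b + 1 + k) B := by
        have := (w.le _).prop_of_epi p hY'
        have e1 : b + ((k + 1 : ℕ) : ℤ) = b + 1 + k := by push_cast; ring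
        rwa [e1] at this
      have h3 : e.comp (Ext.mk₀ p) (add_zero n) = 0 := ih (b + 1) X B hB hB2 _
      obtain ⟨e₁, he₁⟩ := Ext.covariant_sequence_exact₂ X hT e h3
      obtain ⟨a', a, hX', hX⟩ := w.bounded X
      have h4 : e₁ = 0 := h1 (a' - a).toNat a b X A hX (w.le_trans' (by omega) hX')
        ⟨hA, (w.ge b).prop_of_mono i hY⟩ e₁
      rw [← he₁, h4, Ext.zero_comp]
  have key : ∀ (X Y : D) (e : Ext.{max u v} X Y n), e = 0 := by
    intro X Y e
    obtain ⟨b', b, hY', hY⟩ := w.bounded Y
    exact h2 (b' - b).toNat b X Y hY (w.le_trans' (by omega) hY') e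
  exact key

/-- For the class `P` of objects, the natural map from `Ext^n(X, Y)` in the abelian category of the
objects in `P` to `Ext^n(X, Y)` in the whole category is injective. -/
def ExtInj {C : Type u} [Category.{v} C] [Abelian C] (P : ObjectProperty C) [IsRepClass P]
    (X Y : P.FullSubcategory) (n : ℕ) : Prop :=
  let _ : HasExt.{max u v} C := HasExt.standard C
  let _ : HasExt.{max u v} P.FullSubcategory := HasExt.standard P.FullSubcategory
  have := Pool.Agent.R388.CD.exactL P
  have := Pool.Agent.R388.CD.exactR P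
  Function.Injective
    (Ext.mapExactFunctor P.ι : Ext.{max u v} X Y n → Ext.{max u v} X.obj Y.obj n)

variable {C : Type u} [Category.{v} C] [Abelian C] {w : Weights C} (S : PureClasses w)

/-- **The gap.** -/
theorem graded_gap (n : ℕ) {a b : ℤ} {X Y : S.graded.FullSubcategory} (hX : w.le a X.obj)
    (hY : w.ge b Y.obj) (h : a < b + n) : ExtVanish X Y n :=
  gap_vanish (w := gradedWeights S) (noPureExt_graded S) n hX hY h

/-- **Comparison in degree one.** -/
theorem graded_one {a : ℤ} {X Y : S.graded.FullSubcategory} (hX : w.ge a X.obj)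
    (hY : w.le (a - 1) Y.obj) : ExtBij S.graded X Y 1 := by
  let _ : HasExt.{max u v} C := HasExt.standard C
  let _ : HasExt.{max u v} S.graded.FullSubcategory := HasExt.standard _
  have iL := exactL S.graded
  have iR := exactR S.graded
  have key : Function.Bijective (Ext.mapExactFunctor S.graded.ι : Ext.{max u v} X Y 1 →
      Ext.{max u v} X.obj Y.obj 1) :=
    ⟨(injective_iff_map_eq_zero (S.graded.ι.mapExtAddHom X Y 1)).2 fun e he =>
      inj_one S.graded e he, fun e => surj_one S hX hY e⟩
  exact key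

/-- **Comparison in degree two.** -/
theorem graded_two {a : ℤ} {X Y : S.graded.FullSubcategory} (hX : w.ge a X.obj)
    (hY : w.le (a - 1) Y.obj) : ExtInj S.graded X Y 2 := by
  let _ : HasExt.{max u v} C := HasExt.standard C
  let _ : HasExt.{max u v} S.graded.FullSubcategory := HasExt.standard _
  have iL := exactL S.graded
  have iR := exactR S.graded
  obtain ⟨a', a'', hX', hX''⟩ := w.bounded X.obj
  have key : Function.Injective (Ext.mapExactFunctor S.graded.ι : Ext.{max u v} X Y 2 →
      Ext.{max u v} X.obj Y.obj 2) :=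
    (injective_iff_map_eq_zero (S.graded.ι.mapExtAddHom X Y 2)).2 fun e he =>
      inj_two S (a' - a).toNat hX (w.le_trans' (by omega) hX') hY e he
  exact key

/-- Lifting in the category and in the subcategory. -/
lemma liftsAlong_iff {a : ℤ} {X : S.graded.FullSubcategory}
    (hX : w.ge a X.obj) {T : ShortComplex S.graded.FullSubcategory}
    (h2 : w.le (a - 1) T.X₂.obj) (h3 : w.le (a - 1) T.X₃.obj) :
    LiftsAlong X T ↔ LiftsAlong X.obj (T.map S.graded.ι) := by
  let _ : HasExt.{max u v} C := HasExt.standard C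
  let _ : HasExt.{max u v} S.graded.FullSubcategory := HasExt.standard _
  have iL := exactL S.graded
  have iR := exactR S.graded
  have e1 : ∀ α : Ext.{max u v} X T.X₂ 1,
      ((α.comp (Ext.mk₀ T.g) (add_zero 1)).mapExactFunctor S.graded.ι :
        Ext.{max u v} X.obj T.X₃.obj 1) =
      (α.mapExactFunctor S.graded.ι : Ext.{max u v} X.obj T.X₂.obj 1).comp
        (Ext.mk₀ (S.graded.ι.map T.g)) (add_zero 1) := by
    intro α
    refine (Ext.mapExactFunctor_comp S.graded.ι _ _ _).trans ?_
    exact congrArg (fun t => Ext.comp (α.mapExactFunctor S.graded.ι :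
      Ext.{max u v} X.obj T.X₂.obj 1) t (add_zero 1)) (Ext.mapExactFunctor_mk₀ S.graded.ι T.g)
  constructor
  · intro h
    have h' : ∀ α : Ext.{max u v} X T.X₃ 1, ∃ α' : Ext.{max u v} X T.X₂ 1,
      α'.comp (Ext.mk₀ T.g) (add_zero 1) = α := h
    have key : ∀ α : Ext.{max u v} X.obj T.X₃.obj 1, ∃ α' : Ext.{max u v} X.obj T.X₂.obj 1,
        α'.comp (Ext.mk₀ (S.graded.ι.map T.g)) (add_zero 1) = α := by
      intro α
      obtain ⟨β, rfl⟩ := surj_one S (X := X) (Y := T.X₃) hX h3 α
      obtain ⟨γ, rfl⟩ := h' β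
      exact ⟨γ.mapExactFunctor S.graded.ι, (e1 γ).symm⟩
    exact key
  · intro h
    have h' : ∀ α : Ext.{max u v} X.obj T.X₃.obj 1, ∃ α' : Ext.{max u v} X.obj T.X₂.obj 1,
        α'.comp (Ext.mk₀ (S.graded.ι.map T.g)) (add_zero 1) = α := h
    have key : ∀ α : Ext.{max u v} X T.X₃ 1, ∃ α' : Ext.{max u v} X T.X₂ 1,
        α'.comp (Ext.mk₀ T.g) (add_zero 1) = α := by
      intro α
      obtain ⟨β, hβ⟩ := h' (α.mapExactFunctor S.graded.ι)
      obtain ⟨γ, rfl⟩ := surj_one S (X := X) (Y := T.X₂) hX h2 β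
      refine ⟨γ, ?_⟩
      refine sub_eq_zero.1 (inj_one S.graded _ ?_)
      refine (map_sub' S _ _).trans ?_
      rw [sub_eq_zero]
      exact (e1 γ).trans hβ
    exact key

lemma graded_of_cls {m : ℤ} {X : C} (hX : S.cls m X) : S.graded X := by
  intro m' Q hQ h
  have h1 : S.cls m Q := h.prop hX
  have h2 := S.pure m Q h1
  rcases lt_trichotomy m m' with h0 | h0 | h0
  · exact (S.cls m').prop_of_isZero (w.isZero m Q h2.1 (w.ge_trans' (by omega) hQ.2))
  · rwa [← h0]
  · exact (S.cls m').prop_of_isZero (w.isZero m' Q hQ.1 (w.ge_trans' (by omega) h2.2))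

/-- **The criterion.** -/
theorem graded_iff : (∀ X Y : S.graded.FullSubcategory, ExtVanish X Y 2) ↔
    ∀ (a b : ℤ) (X : C) (T : ShortComplex C), b ≤ a - 2 → S.cls a X → T.ShortExact →
      S.cls b T.X₁ → S.graded T.X₂ → w.between (b + 1) (a - 1) T.X₃ → LiftsAlong X T := by
  constructor
  · intro h a b X T hab hX hT h1 h2 h3
    have hg : Epi T.g := hT.epi_g
    have hP1 : S.graded T.X₁ := graded_of_cls S h1
    have hP3 : S.graded T.X₃ := S.graded.prop_of_epi T.g h2
    obtain ⟨h', hT'⟩ := shortExact_lift S.graded (X₁ := ⟨T.X₁, hP1⟩) (X₂ := ⟨T.X₂, h2⟩)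
      (X₃ := ⟨T.X₃, hP3⟩) (S.graded.homMk T.f) (S.graded.homMk T.g) T.zero hT
    have h4 : LiftsAlong (C := S.graded.FullSubcategory) ⟨X, graded_of_cls S hX⟩ _ :=
      liftsAlong_of_vanish hT' (h _ _)
    have h5 : w.le (a - 1) T.X₂ := le_of_shortExact hT
      (w.le_trans' (by omega) (S.pure b _ h1).1) h3.1
    exact (liftsAlong_iff S (a := a) (S.pure a X hX).2 h5 h3.1).1 h4
  · intro h
    refine devissage_pure (gradedWeights S) 2 fun a b X Y hX hY => ?_
    rcases le_or_gt b (a - 2) with h0 | h0
    · refine vanish_of_liftsAlong (w := gradedWeights S) (noPureExt_graded S) hX.1 hY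
        fun T hT hT1 hT3 => ?_
      subst hT1
      have iL := exactL S.graded
      have iR := exactR S.graded
      have hT' := hT.map_of_exact S.graded.ι
      have h5 : w.le (a - 1) T.X₂.obj := le_of_shortExact hT'
        (w.le_trans' (by omega) hY.1) hT3.1
      refine (liftsAlong_iff S (a := a) hX.2 h5 hT3.1).2 ?_
      exact h a b X.obj (T.map S.graded.ι) h0 (X.property a _ hX (IsSubquotient.refl _)) hT'
        (T.X₁.property b _ hY (IsSubquotient.refl _)) T.X₂.property hT3
    · exact graded_gap S 2 hX.1 hY.2 (by push_cast; omega)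

/-- **Vanishing in the whole category implies vanishing in the subcategory.** -/
theorem graded_of_all (h : ∀ X Y : C, ExtVanish X Y 2) :
    ∀ X Y : S.graded.FullSubcategory, ExtVanish X Y 2 :=
  (graded_iff S).2 fun _ _ _ _ _ _ hT _ _ _ => liftsAlong_of_vanish hT (h _ _)

end Pool.Agent.R911.Wu
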