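import Pool.Agent.R911.Wu.Sub

set_option autoImplicit false
set_option linter.unusedSectionVars false

/-!
# The category of the objects with prescribed graded pieces
-/

universe v u

open CategoryTheory CategoryTheory.Limits CategoryTheory.Abelian
open Pool.Agent.R388.CD Pool.Agent.R911.Wt

namespace Pool.Agent.R911.Wu

section Sub

variable {C : Type u} [Category.{v} C] [Abelian C] (P : ObjectProperty C) [IsRepClass P]

/-- A class of objects of `C` restricted to the objects of the subcategory `P`. -/
def res (R : ObjectProperty C) : ObjectProperty P.FullSubcategory := fun X => R X.obj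

instance resClass (R : ObjectProperty C) [hR : IsRepClass R] : IsRepClass (res P R) := by
  have iL := exactL P
  have iR := exactR P
  have h0 : (res P R).ContainsZero := by
    obtain ⟨Z, hZ⟩ : ∃ Z : C, IsZero Z := ⟨_, isZero_zero C⟩
    have hP : P Z := P.prop_of_isZero hZ
    refine ⟨⟨⟨Z, hP⟩, ?_, R.prop_of_isZero hZ⟩⟩
    rw [IsZero.iff_id_eq_zero]
    apply P.ι.map_injective
    exact hZ.eq_of_src _ _
  have h1 : (res P R).IsClosedUnderSubobjects := ⟨fun f _ h => by
    have : Mono (P.ι.map f) := inferInstance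
    exact R.prop_of_mono (P.ι.map f) h⟩
  have h2 : (res P R).IsClosedUnderQuotients := ⟨fun f _ h => by
    have : Epi (P.ι.map f) := inferInstance
    exact R.prop_of_epi (P.ι.map f) h⟩
  have h3 : (res P R).IsClosedUnderFiniteProducts := ⟨fun J _ =>
    inferInstanceAs ((R.inverseImage P.ι).IsClosedUnderLimitsOfShape (Discrete J))⟩
  exact { toContainsZero := h0, toIsClosedUnderSubobjects := h1, toIsClosedUnderQuotients := h2,
          toIsClosedUnderFiniteProducts := h3 }

variable (w : Weights C)

/-- A short exact sequence of objects in `P`. -/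
lemma shortExact_lift {X₁ X₂ X₃ : P.FullSubcategory} (f : X₁ ⟶ X₂) (g : X₂ ⟶ X₃)
    (h : f.hom ≫ g.hom = 0) (hS : (ShortComplex.mk f.hom g.hom h).ShortExact) :
    ∃ h' : f ≫ g = 0, (ShortComplex.mk f g h').ShortExact := by
  have iL := exactL P
  have iR := exactR P
  have h' : f ≫ g = 0 := P.ι.map_injective h
  refine ⟨h', ?_⟩
  have h1 : ((ShortComplex.mk f g h').map P.ι).ShortExact := hS
  exact ShortExact.reflects_shortExact_of_faithful P.ι h1

/-- The weights on the abelian category of the objects in `P`. -/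
def resWeights : Weights P.FullSubcategory where
  le m := res P (w.le m)
  ge m := res P (w.ge m)
  le_class m := resClass P (w.le m)
  ge_class m := resClass P (w.ge m)
  le_mono m X h := w.le_mono m X.obj h
  ge_mono m X h := w.ge_mono m X.obj h
  isZero m X h1 h2 := by
    have h3 := w.isZero m X.obj h1 h2
    rw [IsZero.iff_id_eq_zero]
    apply P.ι.map_injective
    exact h3.eq_of_src _ _
  exists_seq m X := by
    obtain ⟨A, B, i, p, h, hS, hA, hB⟩ := w.exists_seq m X.obj
    have hi : Mono i := hS.mono_f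
    have hp : Epi p := hS.epi_g
    have h1 : P A := P.prop_of_mono i X.property
    have h2 : P B := P.prop_of_epi p X.property
    obtain ⟨h', hS'⟩ := shortExact_lift P (X₁ := ⟨A, h1⟩) (X₂ := X) (X₃ := ⟨B, h2⟩)
      (P.homMk i) (P.homMk p) h hS
    exact ⟨⟨A, h1⟩, ⟨B, h2⟩, P.homMk i, P.homMk p, h', hS', hA, hB⟩
  bounded X := w.bounded X.obj

/-- Injectivity on `Ext¹`. -/
lemma inj_one [HasExt.{max u v} C] [HasExt.{max u v} P.FullSubcategory]
    [PreservesFiniteLimits P.ι] [PreservesFiniteColimits P.ι] {X Y : P.FullSubcategory}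
    (e : Ext.{max u v} X Y 1)
    (h : e.mapExactFunctor P.ι = (0 : Ext.{max u v} X.obj Y.obj 1)) : e = 0 := by
  obtain ⟨K, E, f, p, h0, hS, e', rfl⟩ := exists_extClass_comp e
  have h1 : (hS.map_of_exact P.ι).extClass.comp (e'.mapExactFunctor P.ι) (add_comm 1 0) =
      (0 : Ext.{max u v} _ _ 1) := by
    refine Eq.trans ?_ h
    rw [Ext.mapExactFunctor_comp]
    exact congrArg (fun t => Ext.comp t (e'.mapExactFunctor P.ι) (add_comm 1 0))
      (Ext.mapExactFunctor_extClass P.ι hS).symm
  obtain ⟨g, hg⟩ := Ext.contravariant_sequence_exact₁ (hS.map_of_exact P.ι) (P.ι.obj Y)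
    (e'.mapExactFunctor P.ι) (add_comm 1 0) h1
  obtain ⟨g', rfl⟩ := surj_zero P.ι g
  have h2 : (e' - (Ext.mk₀ f).comp g' (zero_add 0)).mapExactFunctor P.ι =
      (0 : Ext.{max u v} _ _ 0) := by
    have h3 : P.ι.mapExtAddHom K Y 0 (e' - (Ext.mk₀ f).comp g' (zero_add 0)) =
        P.ι.mapExtAddHom K Y 0 e' - P.ι.mapExtAddHom K Y 0 ((Ext.mk₀ f).comp g' (zero_add 0)) :=
      map_sub _ _ _
    refine h3.trans ?_
    rw [sub_eq_zero]
    refine hg.symm.trans ?_
    refine Eq.trans ?_ (Ext.mapExactFunctor_comp P.ι _ _ _).symm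
    exact congrArg (fun t => Ext.comp t (g'.mapExactFunctor P.ι) (zero_add 0))
      (Ext.mapExactFunctor_mk₀ P.ι f).symm
  have h3 := inj_zero P.ι _ h2
  rw [sub_eq_zero] at h3
  rw [h3]
  refine (Ext.comp_assoc_of_second_deg_zero _ _ _ _).symm.trans ?_
  have h4 : hS.extClass.comp (Ext.mk₀ f) (add_zero 1) = 0 := hS.extClass_comp
  rw [h4, Ext.zero_comp]

end Sub

section Graded

variable {C : Type u} [Category.{v} C] [Abelian C] {w : Weights C} (S : PureClasses w)

/-- The weights on the category of the objects with prescribed graded pieces. -/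
abbrev gradedWeights : Weights S.graded.FullSubcategory := resWeights S.graded w

/-- A split short exact sequence has class zero. -/
lemma extClass_eq_zero {D : Type u} [Category.{v} D] [Abelian D] [HasExt.{max u v} D]
    {T : ShortComplex D} (hT : T.ShortExact) (r : T.X₂ ⟶ T.X₁) (hr : T.f ≫ r = 𝟙 _) :
    hT.extClass = (0 : Ext.{max u v} _ _ 1) := by
  have h1 : hT.extClass.comp (Ext.mk₀ T.f) (add_zero 1) = 0 := hT.extClass_comp
  have h2 : (hT.extClass.comp (Ext.mk₀ T.f) (add_zero 1)).comp (Ext.mk₀ r) (add_zero 1) =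
      hT.extClass := by
    refine (Ext.comp_assoc_of_second_deg_zero _ _ _ _).trans ?_
    rw [Ext.mk₀_comp_mk₀, hr]
    exact Ext.comp_mk₀_id _
  rw [← h2, h1, Ext.zero_comp]

/-- There are no extensions between pure objects in the subcategory. -/
lemma noPureExt_graded : (gradedWeights S).NoPureExt := by
  intro a X Y hX hY
  let _ : HasExt.{max u v} S.graded.FullSubcategory := HasExt.standard _
  have iL := exactL S.graded
  have iR := exactR S.graded
  have key : ∀ e : Ext.{max u v} X Y 1, e = 0 := by
    intro e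
    obtain ⟨F, i, p, h, hT, rfl⟩ := exists_shortExact e
    have hT' := hT.map_of_exact S.graded.ι
    have h1 : w.Pure a F.obj :=
      ⟨le_of_shortExact hT' hY.1 hX.1, ge_of_shortExact hT' hY.2 hX.2⟩
    have h2 : S.cls a F.obj := F.property a _ h1 (IsSubquotient.refl _)
    have hi : Mono (S.graded.ι.map i) := hT'.mono_f
    obtain ⟨r, hr⟩ := S.semisimple a _ h2 Y.obj (S.graded.ι.map i) hi
    refine extClass_eq_zero hT (S.graded.homMk r) ?_
    apply S.graded.ι.map_injective
    exact hr
  exact key

end Graded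

end Pool.Agent.R911.Wu
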