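import Pool.Agent.R911.Wu.Final

set_option autoImplicit false
set_option linter.unusedSectionVars false

/-!
# Criteria with irreducible objects
-/

universe v u

open CategoryTheory CategoryTheory.Limits CategoryTheory.Abelian
open Pool.Agent.R388.CD Pool.Agent.R911.Wt

namespace Pool.Agent.R911.Wu

section

variable {C : Type u} [Category.{v} C] [Abelian C] (P : ObjectProperty C) [IsRepClass P]

lemma simple_obj (X : P.FullSubcategory) [Simple X] : Simple X.obj := by
  have iL := exactL P
  have iR := exactR P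
  refine ⟨fun {Z} f hf => ?_⟩
  have hZ : P Z := P.prop_of_mono f X.property
  let f' : (⟨Z, hZ⟩ : P.FullSubcategory) ⟶ X := P.homMk f
  have hf' : P.ι.map f' = f := rfl
  have hm : Mono f' := P.ι.mono_of_mono_map (by rw [hf']; exact hf)
  have h1 : IsIso f' ↔ f' ≠ 0 := Simple.mono_isIso_iff_nonzero f'
  have h2 : IsIso f' ↔ IsIso f :=
    ⟨fun h => by rw [← hf']; infer_instance, fun h => by
      have : IsIso (P.ι.map f') := by rw [hf']; exact h
      exact isIso_of_fully_faithful P.ι f'⟩
  have h3 : f' ≠ 0 ↔ f ≠ 0 :=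
    ⟨fun h h' => h (P.ι.map_injective (by rw [hf', h']; rfl)), fun h h' => h (by
      rw [← hf', h']; rfl)⟩
  rw [← h2, h1, h3]

lemma isDimension_res {d : C → ℕ} (hd : IsDimension d) :
    IsDimension (fun X : P.FullSubcategory => d X.obj) := by
  have iL := exactL P
  have iR := exactR P
  refine ⟨fun T hT => hd.1 _ (hT.map_of_exact P.ι), fun X hX => ?_⟩
  have h1 := hd.2 _ hX
  rw [IsZero.iff_id_eq_zero]
  apply P.ι.map_injective
  exact h1.eq_of_src _ _

end

variable {C : Type u} [Category.{v} C] [Abelian C] {w : Weights C} (S : PureClasses w)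

/-- The weights of a simple object of the subcategory. -/
lemma exists_cls (X : S.graded.FullSubcategory) (hX : Simple X) :
    ∃ m : ℤ, S.cls m X.obj ∧ Simple X.obj := by
  obtain ⟨m, hm⟩ := (gradedWeights S).exists_pure (X := X)
  exact ⟨m, X.property m _ hm (IsSubquotient.refl _), simple_obj _ X⟩

/-- Nonvanishing of `Ext¹`. -/
theorem graded_ne_one {d : C → ℕ} (hd : IsDimension d) :
    (∃ X Y : S.graded.FullSubcategory, ¬ ExtVanish X Y 1) ↔
      ∃ (a b : ℤ) (X Y : C), b < a ∧ Simple X ∧ Simple Y ∧ S.cls a X ∧ S.cls b Y ∧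
        ¬ ExtVanish X Y 1 := by
  let _ : HasExt.{max u v} C := HasExt.standard C
  let _ : HasExt.{max u v} S.graded.FullSubcategory := HasExt.standard _
  have iL := exactL S.graded
  have iR := exactR S.graded
  have key : ∀ {a b : ℤ} {X Y : S.graded.FullSubcategory}, b < a → S.cls a X.obj →
      S.cls b Y.obj → (ExtVanish X Y 1 ↔ ExtVanish X.obj Y.obj 1) := by
    intro a b X Y hab hX hY
    have h1 : Function.Bijective (Ext.mapExactFunctor S.graded.ι : Ext.{max u v} X Y 1 →
        Ext.{max u v} X.obj Y.obj 1) :=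
      graded_one S (a := a) (S.pure a _ hX).2 (w.le_trans' (by omega) (S.pure b _ hY).1)
    have h0 : (0 : Ext.{max u v} X Y 1).mapExactFunctor S.graded.ι =
        (0 : Ext.{max u v} X.obj Y.obj 1) := map_zero (S.graded.ι.mapExtAddHom X Y 1)
    have h2 : (∀ e : Ext.{max u v} X Y 1, e = 0) ↔ ∀ e : Ext.{max u v} X.obj Y.obj 1, e = 0 := by
      constructor
      · intro h e
        obtain ⟨e', rfl⟩ := h1.2 e
        rw [h e']
        exact h0
      · intro h e
        exact h1.1 ((h _).trans h0.symm)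
    exact h2
  constructor
  · intro h
    by_contra hc
    push Not at hc
    obtain ⟨X, Y, hXY⟩ := h
    refine hXY (devissage (fun X : S.graded.FullSubcategory => d X.obj) (isDimension_res _ hd).1
      (isDimension_res _ hd).2 (fun X Y hX hY => ?_) X Y)
    obtain ⟨a, ha, hX'⟩ := exists_cls S X hX
    obtain ⟨b, hb, hY'⟩ := exists_cls S Y hY
    rcases lt_or_ge b a with hab | hab
    · exact (key hab ha hb).2 (hc a b _ _ hab hX' hY' ha hb)
    · exact graded_gap S 1 (S.pure a _ ha).1 (S.pure b _ hb).2 (by push_cast; omega)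
  · rintro ⟨a, b, X, Y, hab, _, _, hX, hY, h⟩
    exact ⟨⟨X, graded_of_cls S hX⟩, ⟨Y, graded_of_cls S hY⟩, fun h' => h ((key hab hX hY).1 h')⟩

/-- **The criterion with irreducible objects.** -/
theorem graded_simple_iff {d : C → ℕ} (hd : IsDimension d) :
    (∀ X Y : S.graded.FullSubcategory, ExtVanish X Y 2) ↔
    ∀ (a b : ℤ) (X : C) (T : ShortComplex C), b ≤ a - 2 → Simple X → S.cls a X → T.ShortExact →
      Simple T.X₁ → S.cls b T.X₁ → S.graded T.X₂ → w.between (b + 1) (a - 1) T.X₃ →
      LiftsAlong X T := by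
  constructor
  · intro h a b X T hab _ hX hT _ h1 h2 h3
    exact (graded_iff S).1 h a b X T hab hX hT h1 h2 h3
  · intro h
    refine devissage (fun X : S.graded.FullSubcategory => d X.obj) (isDimension_res _ hd).1
      (isDimension_res _ hd).2 (fun X Y hX hY => ?_)
    obtain ⟨a, ha, hX'⟩ := exists_cls S X hX
    obtain ⟨b, hb, hY'⟩ := exists_cls S Y hY
    rcases le_or_gt b (a - 2) with h0 | h0
    · refine vanish_of_liftsAlong (w := gradedWeights S) (noPureExt_graded S)
        (S.pure a _ ha).1 (S.pure b _ hb) fun T hT hT1 hT3 => ?_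
      subst hT1
      have iL := exactL S.graded
      have iR := exactR S.graded
      have hT' := hT.map_of_exact S.graded.ι
      have h5 : w.le (a - 1) T.X₂.obj := le_of_shortExact hT'
        (w.le_trans' (by omega) (S.pure b _ hb).1) hT3.1
      refine (liftsAlong_iff S (a := a) (S.pure a _ ha).2 h5 hT3.1).2 ?_
      exact h a b X.obj (T.map S.graded.ι) h0 hX' ha hT' hY' hb T.X₂.property hT3
    · exact graded_gap S 2 (S.pure a _ ha).1 (S.pure b _ hb).2 (by push_cast; omega)

/-- **Vanishing for irreducible objects in the whole category.** -/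
theorem graded_of_simple {d : C → ℕ} (hd : IsDimension d)
    (h : ∀ (a b : ℤ) (X Y : C), b ≤ a - 2 → Simple X → Simple Y → S.cls a X → S.cls b Y →
      ExtVanish X Y 2) :
    ∀ X Y : S.graded.FullSubcategory, ExtVanish X Y 2 :=
  (graded_simple_iff S hd).2 fun a b X _ hab hX1 hX hT hT1 h1 _ _ =>
    liftsAlong_of_vanish hT (h a b X _ hab hX1 hT1 hX h1)

/-- The cohomological dimension is at most one if and only if `Ext²` vanishes. -/
lemma cohDim_le_one_iff {D : Type u} [Category.{v} D] [Abelian D] :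
    cohDim D ≤ 1 ↔ ∀ X Y : D, ExtVanish X Y 2 := by
  constructor
  · intro h X Y
    by_contra hc
    have h1 : ((2 : ℕ) : ℕ∞) ≤ cohDim D :=
      le_iSup₂ (f := fun (n : ℕ) (_ : ∃ X Y : D, ¬ ExtVanish X Y n) => (n : ℕ∞)) 2 ⟨X, Y, hc⟩
    exact absurd (h1.trans h) (by norm_cast)
  · intro h
    refine iSup₂_le ?_
    rintro n ⟨X, Y, hn⟩
    by_contra hc
    have h3 : (1 : ℕ∞) < n := not_le.1 hc
    have h4 : 1 < n := by exact_mod_cast h3
    exact hn (extVanish_of_le (by omega) h X Y)

theorem graded_le_one (h : cohDim C ≤ 1) : cohDim S.graded.FullSubcategory ≤ 1 :=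
  cohDim_le_one_iff.2 (graded_of_all S (cohDim_le_one_iff.1 h))

theorem graded_eq_one {d : C → ℕ} (hd : IsDimension d) :
    cohDim S.graded.FullSubcategory = 1 ↔
      (∃ (a b : ℤ) (X Y : C), b < a ∧ Simple X ∧ Simple Y ∧ S.cls a X ∧ S.cls b Y ∧
        ¬ ExtVanish X Y 1) ∧
      ∀ (a b : ℤ) (X : C) (T : ShortComplex C), b ≤ a - 2 → Simple X → S.cls a X →
        T.ShortExact → Simple T.X₁ → S.cls b T.X₁ → S.graded T.X₂ →
        w.between (b + 1) (a - 1) T.X₃ → LiftsAlong X T := by
  rw [cohDim_eq_one_iff, graded_ne_one S hd, graded_simple_iff S hd]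

end Pool.Agent.R911.Wu
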