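import Pool.Agent.R911.Wu.Inj
import Pool.Agent.R388.CD.Final

set_option autoImplicit false
set_option linter.unusedSectionVars false

/-!
# Semistable objects: general lemmas
-/

universe w w' w'' v v' v'' u u' u''

open CategoryTheory CategoryTheory.Limits CategoryTheory.Abelian
open Pool.Agent.R388.CD Pool.Agent.R911.Wt

namespace Pool.Agent.R911.Wu

section Inj

variable {C : Type u} [Category.{v} C] [Abelian C] [HasExt.{w} C]
  {D : Type u'} [Category.{v'} D] [Abelian D] [HasExt.{w'} D]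
  (F : D ⥤ C) [F.Additive] [PreservesFiniteLimits F] [PreservesFiniteColimits F]
  [F.Full] [F.Faithful]

/-- Surjectivity in smaller degrees implies injectivity. -/
theorem inj_of_surj_lt {n : ℕ} (hs : ∀ (m : ℕ) (X Y : D) (e : Ext.{w} (F.obj X) (F.obj Y) m),
    m < n → ∃ e' : Ext.{w'} X Y m, e'.mapExactFunctor F = e) :
    ∀ {X Y : D} (e : Ext.{w'} X Y n), e.mapExactFunctor F = (0 : Ext.{w} _ _ n) → e = 0 := by
  induction n with
  | zero => exact fun e => inj_zero F e
  | succ n ih =>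
    intro X Y e h
    obtain ⟨K, E, f, p, h0, hS, e', rfl⟩ := exists_extClass_comp e
    have h1 : (hS.map_of_exact F).extClass.comp (e'.mapExactFunctor F) (add_comm 1 n) =
        (0 : Ext.{w} _ _ (n + 1)) := by
      refine Eq.trans ?_ h
      rw [Ext.mapExactFunctor_comp]
      exact congrArg (fun t => Ext.comp t (e'.mapExactFunctor F) (add_comm 1 n))
        (Ext.mapExactFunctor_extClass F hS).symm
    obtain ⟨g, hg⟩ := Ext.contravariant_sequence_exact₁ (hS.map_of_exact F) (F.obj Y)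
      (e'.mapExactFunctor F) (add_comm 1 n) h1
    obtain ⟨g', rfl⟩ := hs n E Y g (by omega)
    have h2 : (e' - (Ext.mk₀ f).comp g' (zero_add n)).mapExactFunctor F =
        (0 : Ext.{w} _ _ n) := by
      have h3 : F.mapExtAddHom K Y n (e' - (Ext.mk₀ f).comp g' (zero_add n)) =
          F.mapExtAddHom K Y n e' - F.mapExtAddHom K Y n ((Ext.mk₀ f).comp g' (zero_add n)) :=
        map_sub _ _ _
      refine h3.trans ?_
      rw [sub_eq_zero]
      refine hg.symm.trans ?_
      refine Eq.trans ?_ (Ext.mapExactFunctor_comp F _ _ _).symm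
      exact congrArg (fun t => Ext.comp t (g'.mapExactFunctor F) (zero_add n))
        (Ext.mapExactFunctor_mk₀ F f).symm
    have h3 := ih (fun m X Y e hm => hs m X Y e (by omega)) _ h2
    rw [sub_eq_zero] at h3
    rw [h3]
    refine (Ext.comp_assoc_of_second_deg_zero _ _ _ _).symm.trans ?_
    have h4 : hS.extClass.comp (Ext.mk₀ f) (add_zero 1) = 0 := hS.extClass_comp
    rw [h4, Ext.zero_comp]

end Inj

section Sub

variable {A : Type u} [Category.{v} A] [Abelian A] (P Q : ObjectProperty A) [IsRepClass P]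
  [IsRepClass Q] (h : P ≤ Q)

/-- The inclusion of the subcategory `P` into the subcategory `Q`. -/
abbrev incl : P.FullSubcategory ⥤ Q.FullSubcategory := ObjectProperty.ιOfLE h

instance : (incl P Q h).Additive where
  map_add := rfl

instance inclL : PreservesFiniteLimits (incl P Q h) := by
  have h1 : PreservesFiniteLimits (incl P Q h ⋙ Q.ι) := exactL P
  have := exactL Q
  exact preservesFiniteLimits_of_reflects_of_preserves _ Q.ι

instance inclR : PreservesFiniteColimits (incl P Q h) := by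
  have h1 : PreservesFiniteColimits (incl P Q h ⋙ Q.ι) := exactR P
  have := exactR Q
  exact preservesFiniteColimits_of_reflects_of_preserves _ Q.ι

/-- Extensions in the larger category of objects of the smaller one are in the smaller one. -/
def ExtClosed : Prop := ∀ T : ShortComplex A, T.ShortExact → P T.X₁ → P T.X₃ → Q T.X₂ → P T.X₂

lemma surj_one_incl [HasExt.{max u v} P.FullSubcategory] [HasExt.{max u v} Q.FullSubcategory]
    (hc : ExtClosed P Q) {X Y : P.FullSubcategory}
    (e : Ext.{max u v} ((incl P Q h).obj X) ((incl P Q h).obj Y) 1) :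
    ∃ e' : Ext.{max u v} X Y 1, e'.mapExactFunctor (incl P Q h) = e := by
  obtain ⟨F, i, p, h0, hT, rfl⟩ := exists_shortExact e
  have iL := exactL Q
  have iR := exactR Q
  have hT' := hT.map_of_exact Q.ι
  have hF : P F.obj := hc _ hT' Y.property X.property F.property
  obtain ⟨h', hT''⟩ := shortExact_lift P (X₁ := Y) (X₂ := ⟨F.obj, hF⟩) (X₃ := X)
    (P.homMk i.hom) (P.homMk p.hom) (congrArg (fun t => t.hom) h0) hT'
  exact ⟨hT''.extClass, Ext.mapExactFunctor_extClass (incl P Q h) hT''⟩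

lemma surj_le_one [HasExt.{max u v} P.FullSubcategory] [HasExt.{max u v} Q.FullSubcategory]
    (hc : ExtClosed P Q) (m : ℕ) (X Y : P.FullSubcategory)
    (e : Ext.{max u v} ((incl P Q h).obj X) ((incl P Q h).obj Y) m) (hm : m < 2) :
    ∃ e' : Ext.{max u v} X Y m, e'.mapExactFunctor (incl P Q h) = e := by
  obtain _ | _ | m := m
  · exact surj_zero (incl P Q h) e
  · exact surj_one_incl P Q h hc e
  · omega

end Sub

section Lift

variable {B : Type u} [Category.{v} B] [Abelian B] [HasExt.{w} B]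

/-- Each class in `Ext^n(X, Y)` comes from the subcategory after application of each functor which
maps a certain object to the subcategory. -/
theorem exists_support {n : ℕ} : ∀ {X Y : B} (e : Ext.{w} X Y n), ∃ Z : B,
    ∀ {A : Type u'} [Category.{v'} A] [Abelian A] (P Q : ObjectProperty A) [IsRepClass P]
      [IsRepClass Q] (h : P ≤ Q) (T : B ⥤ Q.FullSubcategory) [T.Additive]
      [PreservesFiniteLimits T] [PreservesFiniteColimits T] [HasExt.{w'} P.FullSubcategory]
      [HasExt.{w'} Q.FullSubcategory], P (T.obj Z).obj →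
      ∃ (hX : P (T.obj X).obj) (hY : P (T.obj Y).obj)
        (e' : Ext.{w'} (⟨(T.obj X).obj, hX⟩ : P.FullSubcategory) ⟨(T.obj Y).obj, hY⟩ n),
        (e'.mapExactFunctor (incl P Q h) : Ext.{w'} (T.obj X) (T.obj Y) n) =
          e.mapExactFunctor T := by
  induction n with
  | zero =>
    intro X Y e
    obtain ⟨f, rfl⟩ := (Ext.mk₀_bijective X Y).2 e
    refine ⟨X ⊞ Y, fun {A} _ _ P Q _ _ h T _ _ _ _ _ hZ => ?_⟩
    have iL := exactL Q
    have hX : P (T.obj X).obj := P.prop_of_mono (Q.ι.map (T.map (biprod.inl : X ⟶ X ⊞ Y))) hZ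
    have hY : P (T.obj Y).obj := P.prop_of_mono (Q.ι.map (T.map (biprod.inr : Y ⟶ X ⊞ Y))) hZ
    refine ⟨hX, hY, Ext.mk₀ (P.homMk (T.map f).hom), ?_⟩
    rw [Ext.mapExactFunctor_mk₀]
    exact (Ext.mapExactFunctor_mk₀ T f).symm
  | succ n ih =>
    intro X Y e
    obtain ⟨K, E, f, p, h0, hS, e₁, rfl⟩ := exists_extClass_comp e
    obtain ⟨Z, hZ⟩ := ih e₁
    refine ⟨Z ⊞ E, fun {A} _ _ P Q _ _ h T _ _ _ _ _ hZE => ?_⟩
    have iL := exactL Q
    have iR := exactR Q
    have h1 : P (T.obj Z).obj := P.prop_of_mono (Q.ι.map (T.map (biprod.inl : Z ⟶ Z ⊞ E))) hZE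
    have h2 : P (T.obj E).obj := P.prop_of_mono (Q.ι.map (T.map (biprod.inr : E ⟶ Z ⊞ E))) hZE
    obtain ⟨hK, hY, e', he'⟩ := hZ P Q h T h1
    have hT := hS.map_of_exact T
    have hT' := hT.map_of_exact Q.ι
    have hp : Epi (Q.ι.map (T.map p)) := hT'.epi_g
    have hX : P (T.obj X).obj := P.prop_of_epi (Q.ι.map (T.map p)) h2
    obtain ⟨h', hT''⟩ := shortExact_lift P (X₁ := ⟨(T.obj K).obj, hK⟩)
      (X₂ := ⟨(T.obj E).obj, h2⟩) (X₃ := ⟨(T.obj X).obj, hX⟩)
      (P.homMk (T.map f).hom) (P.homMk (T.map p).hom)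
      (congrArg (fun t => t.hom) (show T.map f ≫ T.map p = 0 by rw [← T.map_comp, h0, T.map_zero]))
      hT'
    refine ⟨hX, hY, hT''.extClass.comp e' (add_comm 1 n), ?_⟩
    refine (Ext.mapExactFunctor_comp (incl P Q h) _ _ _).trans ?_
    refine Eq.trans ?_ (Ext.mapExactFunctor_comp T _ _ _).symm
    have e2 : (hT''.extClass.mapExactFunctor (incl P Q h) : Ext.{w'} (T.obj X) (T.obj K) 1) =
        hS.extClass.mapExactFunctor T :=
      (Ext.mapExactFunctor_extClass (incl P Q h) hT'').trans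
        (Ext.mapExactFunctor_extClass T hS).symm
    exact congrArg₂ (fun s t => Ext.comp s t (add_comm 1 n)) e2 he'

end Lift

section Unit

variable {C : Type u} [Category.{v} C] [Abelian C] [HasExt.{w} C]
  {D : Type u'} [Category.{v'} D] [Abelian D] [HasExt.{w'} D]
  (T : C ⥤ D) (U : D ⥤ C) [T.Additive] [PreservesFiniteLimits T] [PreservesFiniteColimits T]
  [U.Additive] [PreservesFiniteLimits U] [PreservesFiniteColimits U]

/-- A class which vanishes under `T` is zero if `Y` is a direct summand of `U (T Y)`. -/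
theorem eq_zero_of_unit (ι : 𝟭 C ⟶ T ⋙ U) {X Y : C} (r : (T ⋙ U).obj Y ⟶ Y)
    (hr : ι.app Y ≫ r = 𝟙 Y) {n : ℕ} (e : Ext.{w} X Y n)
    (h : e.mapExactFunctor T = (0 : Ext.{w'} _ _ n)) : e = 0 := by
  have h1 := nat_unit T U ι e
  rw [h, Ext.mapExactFunctor_zero, Ext.comp_zero] at h1
  have h2 : (e.comp (Ext.mk₀ (ι.app Y)) (add_zero n)).comp (Ext.mk₀ r) (add_zero n) = 0 := by
    rw [h1, Ext.zero_comp]
  rw [Ext.comp_assoc_of_third_deg_zero] at h2
  have h3 : (Ext.mk₀ (ι.app Y)).comp (Ext.mk₀ r) (add_zero 0) = Ext.mk₀ (𝟙 Y) :=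
    (Ext.mk₀_comp_mk₀ _ _).trans (congrArg Ext.mk₀ hr)
  rw [h3, Ext.comp_mk₀_id] at h2
  exact h2

end Unit

end Pool.Agent.R911.Wu
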