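import Pool.Agent.R911.Wt.Gap

set_option autoImplicit false
set_option linter.unusedSectionVars false

/-!
# Abelian categories with weights: the objects with prescribed graded pieces
-/

universe v u

open CategoryTheory CategoryTheory.Limits CategoryTheory.Abelian
open Pool.Agent.R388.CD Pool.Agent.R911.Wt

namespace Pool.Agent.R911.Wu

variable {C : Type u} [Category.{v} C] [Abelian C]

/-- The object `Q` is a quotient of a subobject of `X`. -/
def IsSubquotient (Q X : C) : Prop :=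
  ∃ (B : C) (i : B ⟶ X) (p : B ⟶ Q), Mono i ∧ Epi p

lemma IsSubquotient.refl (X : C) : IsSubquotient X X :=
  ⟨X, 𝟙 X, 𝟙 X, inferInstance, inferInstance⟩

lemma IsSubquotient.of_mono {Q X' X : C} (h : IsSubquotient Q X') (f : X' ⟶ X) [Mono f] :
    IsSubquotient Q X := by
  obtain ⟨B, i, p, hi, hp⟩ := h
  exact ⟨B, i ≫ f, p, mono_comp _ _, hp⟩

lemma IsSubquotient.of_epi {Q X X' : C} (h : IsSubquotient Q X') (f : X ⟶ X') [Epi f] :
    IsSubquotient Q X := by
  obtain ⟨B, i, p, hi, hp⟩ := h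
  exact ⟨pullback i f, pullback.snd i f, pullback.fst i f ≫ p, inferInstance, epi_comp _ _⟩

lemma IsSubquotient.prop {P : ObjectProperty C} [IsRepClass P] {Q X : C}
    (h : IsSubquotient Q X) (hX : P X) : P Q := by
  obtain ⟨B, i, p, hi, hp⟩ := h
  exact P.prop_of_epi p (P.prop_of_mono i hX)

/-- An object of the category is semisimple: each subobject is a direct summand. -/
def IsSemisimpleObj (X : C) : Prop :=
  ∀ (A : C) (i : A ⟶ X), Mono i → ∃ r : X ⟶ A, i ≫ r = 𝟙 A

variable (w : Weights C)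

/-- For each `m`, a class of semisimple objects which are pure of weight `m`, stable under
subobjects, quotients and finite products. -/
structure PureClasses where
  /-- the class of pure objects of weight `m` -/
  cls : ℤ → ObjectProperty C
  rep (m : ℤ) : IsRepClass (cls m)
  pure (m : ℤ) (X : C) : cls m X → w.Pure m X
  semisimple (m : ℤ) (X : C) : cls m X → IsSemisimpleObj X

attribute [instance] PureClasses.rep

variable {w}

/-- The objects whose weight-graded pieces belong to the given classes: each pure subquotient of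
weight `m` belongs to the class of weight `m`. -/
def PureClasses.graded (S : PureClasses w) : ObjectProperty C :=
  fun X => ∀ (m : ℤ) (Q : C), w.Pure m Q → IsSubquotient Q X → S.cls m Q

lemma hom_eq_zero {m : ℤ} {X Y : C} (hX : w.le m X) (hY : w.ge (m + 1) Y) (f : X ⟶ Y) : f = 0 := by
  have h1 : IsZero (Limits.image f) := w.isZero m _
    ((w.le m).prop_of_epi (Limits.factorThruImage f) hX)
    ((w.ge (m + 1)).prop_of_mono (Limits.image.ι f) hY)
  rw [← Limits.image.fac f, h1.eq_of_tgt (Limits.factorThruImage f) 0, zero_comp]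

lemma hom_eq_zero' {m : ℤ} {X Y : C} (hX : w.le (m - 1) X) (hY : w.ge m Y) (f : X ⟶ Y) : f = 0 :=
  hom_eq_zero hX (by rw [sub_add_cancel]; exact hY) f

/-- If the kernel of `f : B ⟶ T` has weights less than `m` then a quotient of `B` with weights at
least `m` is a subquotient of `T`. -/
lemma isSubquotient_of_kernel {m : ℤ} {B T Q : C} (f : B ⟶ T) (p : B ⟶ Q) [Epi p]
    (hQ : w.ge m Q) (hf : w.le (m - 1) (kernel f)) : IsSubquotient Q T := by
  let e : B ⟶ Limits.image f := Limits.factorThruImage f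
  have he : Epi e := inferInstanceAs (Epi (Limits.factorThruImage f))
  have hef : e ≫ Limits.image.ι f = f := Limits.image.fac f
  have h1 : kernel.ι e ≫ f = 0 := by
    have h0 : kernel.ι e ≫ e ≫ Limits.image.ι f = 0 := by
      rw [← Category.assoc, kernel.condition, zero_comp]
    rwa [hef] at h0
  have h2 : kernel.lift f (kernel.ι e) h1 ≫ kernel.ι f = kernel.ι e := kernel.lift_ι _ _ _
  have h3 : Mono (kernel.lift f (kernel.ι e) h1) := mono_of_mono_fac h2
  have h4 : w.le (m - 1) (kernel e) :=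
    (w.le (m - 1)).prop_of_mono (kernel.lift f (kernel.ι e) h1) hf
  have h5 : kernel.ι e ≫ p = 0 := hom_eq_zero' h4 hQ _
  have hS : (ShortComplex.mk (kernel.ι e) e (kernel.condition e)).Exact :=
    ShortComplex.exact_kernel e
  have : Epi (ShortComplex.mk (kernel.ι e) e (kernel.condition e)).g := he
  have h6 : e ≫ hS.desc p h5 = p := hS.g_desc p h5
  have h7 : Epi (hS.desc p h5) := epi_of_epi_fac h6
  exact ⟨Limits.image f, Limits.image.ι f, hS.desc p h5, inferInstance, h7⟩

/-- An object which has weights at most `m` and is a subquotient of `X`, is a quotient of a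
subobject of `X` with weights at most `m`. -/
lemma IsSubquotient.exists_le {m : ℤ} {Q X : C} (hQ : w.le m Q) (h : IsSubquotient Q X) :
    ∃ (B : C) (i : B ⟶ X) (p : B ⟶ Q), Mono i ∧ Epi p ∧ w.le m B := by
  obtain ⟨B, i, p, hi, hp⟩ := h
  obtain ⟨B₁, B₂, j, q, h0, hS, h1, h2⟩ := w.exists_seq m B
  have hj : Mono j := hS.mono_f
  exact ⟨B₁, j ≫ i, j ≫ p, mono_comp _ _, w.epi_of_le j q h0 hS h2 p hQ, h1⟩

/-- Subquotients with weights at most `m` of an extension of an object with weights larger than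
`m`. -/
lemma isSubquotient_sub {m : ℤ} {S : ShortComplex C} (hS : S.ShortExact) (h3 : w.ge (m + 1) S.X₃)
    {Q : C} (hQ : w.le m Q) (h : IsSubquotient Q S.X₂) : IsSubquotient Q S.X₁ := by
  obtain ⟨B, i, p, hi, hp, hB⟩ := h.exists_le hQ
  have hf : Mono S.f := hS.mono_f
  have h4 : i ≫ S.g = 0 := hom_eq_zero hB h3 _
  have h5 : hS.exact.lift i h4 ≫ S.f = i := hS.exact.lift_f i h4
  exact ⟨B, hS.exact.lift i h4, p, mono_of_mono_fac h5, hp⟩

/-- Subquotients with weights at least `m` of an extension by an object with weights less than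
`m`. -/
lemma isSubquotient_quot {m : ℤ} {S : ShortComplex C} (hS : S.ShortExact)
    (h1 : w.le (m - 1) S.X₁) {Q : C} (hQ : w.ge m Q) (h : IsSubquotient Q S.X₂) :
    IsSubquotient Q S.X₃ := by
  obtain ⟨B, i, p, hi, hp⟩ := h
  have hf : Mono S.f := hS.mono_f
  have h4 : (kernel.ι (i ≫ S.g) ≫ i) ≫ S.g = 0 := by rw [Category.assoc, kernel.condition]
  have h5 : hS.exact.lift _ h4 ≫ S.f = kernel.ι (i ≫ S.g) ≫ i := hS.exact.lift_f _ h4
  have h6 : Mono (kernel.ι (i ≫ S.g) ≫ i) := mono_comp _ _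
  have h7 : Mono (hS.exact.lift _ h4) := mono_of_mono_fac h5
  exact isSubquotient_of_kernel (i ≫ S.g) p hQ
    ((w.le (m - 1)).prop_of_mono (hS.exact.lift _ h4) h1)

instance (S : PureClasses w) : S.graded.IsClosedUnderSubobjects :=
  ⟨fun f _ h m Q hQ h' => h m Q hQ (h'.of_mono f)⟩

instance (S : PureClasses w) : S.graded.IsClosedUnderQuotients :=
  ⟨fun f _ h m Q hQ h' => h m Q hQ (h'.of_epi f)⟩

instance (S : PureClasses w) : S.graded.ContainsZero where
  exists_zero := by
    obtain ⟨Z, hZ⟩ : ∃ Z : C, IsZero Z := ⟨_, isZero_zero C⟩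
    refine ⟨Z, hZ, fun m Q _ h => ?_⟩
    obtain ⟨B, i, p, hi, hp⟩ := h
    have h1 : IsZero B := hZ.of_mono i
    exact (S.cls m).prop_of_isZero (h1.of_epi p)

/-- The graded piece of weight `m` of an object. -/
lemma exists_piece (S : PureClasses w) {X : C} (hX : S.graded X) (m : ℤ) :
    ∃ (A G : C) (i : A ⟶ X) (q : A ⟶ G), Mono i ∧ S.cls m G ∧ w.le (m - 1) (kernel q) ∧
      ∀ (B : C) (j : B ⟶ X), w.le m B → ∃ k : B ⟶ A, k ≫ i = j := by
  obtain ⟨A, B, i, r, h0, hS, hA, hB⟩ := w.exists_seq m X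
  obtain ⟨A', G, i', q, h0', hS', hA', hG⟩ := w.exists_seq (m - 1) A
  rw [sub_add_cancel] at hG
  have hi : Mono i := hS.mono_f
  have hi' : Mono i' := hS'.mono_f
  have hq : Epi q := hS'.epi_g
  refine ⟨A, G, i, q, hi, hX m G ⟨(w.le m).prop_of_epi q hA, hG⟩ ⟨A, i, q, hi, hq⟩, ?_, ?_⟩
  · have h1 : hS'.exact.lift (kernel.ι q) (kernel.condition q) ≫ i' = kernel.ι q :=
      hS'.exact.lift_f _ _
    have h2 : Mono (hS'.exact.lift (kernel.ι q) (kernel.condition q)) := mono_of_mono_fac h1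
    exact (w.le (m - 1)).prop_of_mono (hS'.exact.lift (kernel.ι q) (kernel.condition q)) hA'
  · intro B' j hB'
    have h1 : j ≫ r = 0 := hom_eq_zero hB' hB _
    exact ⟨hS.exact.lift j h1, hS.exact.lift_f j h1⟩

instance (S : PureClasses w) : S.graded.IsClosedUnderFiniteProducts where
  isClosedUnderLimitsOfShape J _ := ⟨by
    rintro X ⟨p⟩ m Q hQ h
    obtain ⟨B, i, r, hi, hr, hB⟩ := h.exists_le hQ.1
    choose A G ι' q h1 h2 h3 h4 using fun j : J => exists_piece S (p.prop_diag_obj ⟨j⟩) m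
    choose k hk using fun j : J => h4 j B (i ≫ p.π.app ⟨j⟩) hB
    have hG : S.cls m (∏ᶜ G) := (S.cls m).prop_of_isLimit (limit.isLimit (Discrete.functor G))
      fun j => h2 j.as
    have hK : w.le (m - 1) (∏ᶜ fun j => kernel (q j)) := (w.le (m - 1)).prop_of_isLimit
      (limit.isLimit (Discrete.functor fun j => kernel (q j))) fun j => h3 j.as
    let g : B ⟶ ∏ᶜ G := Pi.lift fun j => k j ≫ q j
    have h5 : ∀ j, (kernel.ι g ≫ k j) ≫ q j = 0 := fun j => by
      have e1 : g ≫ Pi.π G j = k j ≫ q j := Pi.lift_π _ _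
      rw [Category.assoc, ← e1, ← Category.assoc, kernel.condition, zero_comp]
    let l : kernel g ⟶ ∏ᶜ fun j => kernel (q j) :=
      Pi.lift fun j => kernel.lift (q j) (kernel.ι g ≫ k j) (h5 j)
    have h6 : ∀ j, (l ≫ Pi.π _ j) ≫ kernel.ι (q j) = kernel.ι g ≫ k j := fun j => by
      have e1 : l ≫ Pi.π _ j = kernel.lift (q j) (kernel.ι g ≫ k j) (h5 j) := Pi.lift_π _ _
      rw [e1, kernel.lift_ι]
    have h7 : Mono l := ⟨fun {Z} a b hab => by
      have e2 : ∀ j, a ≫ kernel.ι g ≫ k j = b ≫ kernel.ι g ≫ k j := fun j => by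
        rw [← h6 j, ← Category.assoc, ← Category.assoc, hab]
        simp only [Category.assoc]
      have e3 : (a ≫ kernel.ι g) ≫ i = (b ≫ kernel.ι g) ≫ i := by
        apply p.isLimit.hom_ext
        rintro ⟨j⟩
        have e4 := congrArg (fun t => t ≫ ι' j) (e2 j)
        simp only [Category.assoc, hk] at e4
        simp only [Category.assoc]
        exact e4
      have e5 : a ≫ kernel.ι g = b ≫ kernel.ι g := (cancel_mono i).1 e3
      exact (cancel_mono (kernel.ι g)).1 e5⟩
    have h8 := isSubquotient_of_kernel g r hQ.2 ((w.le (m - 1)).prop_of_mono l hK)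
    exact h8.prop hG⟩

instance (S : PureClasses w) : IsRepClass S.graded where

/-- Extensions which increase the weights stay in the category. -/
lemma graded_of_shortExact (S : PureClasses w) {a : ℤ} {T : ShortComplex C} (hT : T.ShortExact)
    (h1 : w.le (a - 1) T.X₁) (h3 : w.ge a T.X₃) (hS1 : S.graded T.X₁) (hS3 : S.graded T.X₃) :
    S.graded T.X₂ := by
  intro m Q hQ h
  rcases le_or_gt a m with h0 | h0
  · exact hS3 m Q hQ (isSubquotient_quot hT (w.le_trans' (by omega) h1) hQ.2 h)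
  · exact hS1 m Q hQ (isSubquotient_sub hT (w.ge_trans' (by omega) h3) hQ.1 h)

/-- Stability of the weights under extensions. -/
lemma le_of_shortExact {a : ℤ} {T : ShortComplex C} (hT : T.ShortExact)
    (h1 : w.le a T.X₁) (h3 : w.le a T.X₃) : w.le a T.X₂ := by
  obtain ⟨A, B, i, q, h0, hS, hA, hB⟩ := w.exists_seq a T.X₂
  have hq : Epi q := hS.epi_g
  have hg : Epi T.g := hT.epi_g
  have h4 : T.f ≫ q = 0 := hom_eq_zero h1 hB _
  have h5 : T.g ≫ hT.exact.desc q h4 = q := hT.exact.g_desc q h4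
  have h6 : hT.exact.desc q h4 = 0 := hom_eq_zero h3 hB _
  have h7 : q = 0 := by rw [← h5, h6, comp_zero]
  have h8 : IsZero B := (IsZero.iff_id_eq_zero B).2 (by
    rw [← cancel_epi q, h7, zero_comp, zero_comp])
  have h9 : 𝟙 T.X₂ ≫ q = 0 := by rw [h7, comp_zero]
  have hi : Mono i := hS.mono_f
  have h10 : hS.exact.lift (𝟙 _) h9 ≫ i = 𝟙 T.X₂ := hS.exact.lift_f _ h9
  have h11 : Mono (hS.exact.lift (𝟙 _) h9) := by
    have : Mono (hS.exact.lift (𝟙 _) h9 ≫ i) := by rw [h10]; infer_instance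
    exact mono_of_mono _ i
  exact (w.le a).prop_of_mono (hS.exact.lift (𝟙 _) h9) hA

lemma ge_of_shortExact {a : ℤ} {T : ShortComplex C} (hT : T.ShortExact)
    (h1 : w.ge a T.X₁) (h3 : w.ge a T.X₃) : w.ge a T.X₂ := by
  obtain ⟨A, B, i, q, h0, hS, hA, hB⟩ := w.exists_seq (a - 1) T.X₂
  rw [sub_add_cancel] at hB
  have hi : Mono i := hS.mono_f
  have hf : Mono T.f := hT.mono_f
  have h4 : i ≫ T.g = 0 := hom_eq_zero' hA h3 _
  have h5 : hT.exact.lift i h4 ≫ T.f = i := hT.exact.lift_f i h4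
  have h6 : hT.exact.lift i h4 = 0 := hom_eq_zero' hA h1 _
  have h7 : i = 0 := by rw [← h5, h6, zero_comp]
  have h9 : i ≫ 𝟙 T.X₂ = 0 := by rw [h7, zero_comp]
  have hq : Epi q := hS.epi_g
  have h10 : q ≫ hS.exact.desc (𝟙 _) h9 = 𝟙 T.X₂ := hS.exact.g_desc _ h9
  have h11 : Epi (hS.exact.desc (𝟙 _) h9) := by
    have : Epi (q ≫ hS.exact.desc (𝟙 _) h9) := by rw [h10]; infer_instance
    exact epi_of_epi q _
  exact (w.ge a).prop_of_epi (hS.exact.desc (𝟙 _) h9) hB

end Pool.Agent.R911.Wu
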