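import Pool.Agent.R911.Wu.St
import Pool.Agent.R911.Wu.Last

set_option autoImplicit false
set_option linter.unusedSectionVars false

/-!
# Systems of representations with semistable objects
-/

open CategoryTheory CategoryTheory.Limits CategoryTheory.Abelian
open Pool.Agent.R388.CD Pool.Agent.R911.Wt

namespace Pool.Agent.R911.Wu

section Group

variable {F : Type} [Field F] {G : Type} [Group G]

/-- Vanishing of `Ext^n` for the base follows from the vanishing of `Ext^n` in subcategories of the
categories for the subgroups, if each object of the base comes to lie in one of them. -/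
theorem base_vanish {I : Type} (U : I → Subgroup G) [∀ i, (U i).FiniteIndex] [CharZero F]
    (P : ObjectProperty (Rep.{0} F G)) (Q : ∀ i, ObjectProperty (Rep.{0} F (U i)))
    [IsRepClass P] [∀ i, IsRepClass (Q i)]
    (hres : ∀ i V, P V → Q i ((Res F (U i)).obj V))
    (hcoi : ∀ i W, Q i W → P ((Coi F (U i)).obj W))
    (S : ∀ i, ObjectProperty (Rep.{0} F (U i))) [∀ i, IsRepClass (S i)]
    (hS : ∀ i, S i ≤ Q i) (𝓘 : Set I)
    (hpot : ∀ V, P V → ∃ i ∈ 𝓘, S i ((Res F (U i)).obj V)) {n : ℕ}
    (h : ∀ i ∈ 𝓘, ∀ X Y : (S i).FullSubcategory, ExtVanish X Y n) :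
    ∀ X Y : P.FullSubcategory, ExtVanish X Y n := by
  let _ : HasExt.{1} P.FullSubcategory := HasExt.standard _
  intro X Y
  have key : ∀ e : Ext.{1} X Y n, e = 0 := by
    intro e
    obtain ⟨Z, hZ⟩ := exists_support (n := n) e
    obtain ⟨i, hi, hZi⟩ := hpot Z.obj Z.property
    have := coiR (F := F) (U i)
    let _ : HasExt.{1} (Q i).FullSubcategory := HasExt.standard _
    let _ : HasExt.{1} (S i).FullSubcategory := HasExt.standard _
    obtain ⟨hX, hY, e', he'⟩ := hZ (S i) (Q i) (hS i) (lft P (Q i) (Res F (U i)) (hres i)) hZi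
    have h1 : e' = 0 := h i hi ⟨_, hX⟩ ⟨_, hY⟩ e'
    have h2 : e.mapExactFunctor (lft P (Q i) (Res F (U i)) (hres i)) =
        (0 : Ext.{1} _ _ n) := by
      rw [← he', h1]
      exact Ext.mapExactFunctor_zero (incl (S i) (Q i) (hS i)) _ _ _
    exact eq_zero_of_unit (lft P (Q i) (Res F (U i)) (hres i))
      (lft (Q i) P (Coi F (U i)) (hcoi i))
      { app := fun X => P.homMk ((unitNat (U i)).app X.obj)
        naturality := fun X Y f => by
          apply P.ι.map_injective
          exact (unitNat (U i)).naturality f.hom }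
      (P.homMk (avg (U i) Y.obj)) (by
        apply P.ι.map_injective
        exact unit_avg (U i) Y.obj) e h2
  exact key

/-- The objects of the categories for the subgroups are finite-dimensional. -/
theorem finite_of_ind (U : Subgroup G) (P : ObjectProperty (Rep.{0} F G))
    (hfd : ∀ V, P V → FiniteDimensional F V) (W : Rep.{0} F U) (h : P ((Coi F U).obj W)) :
    FiniteDimensional F W := by
  have h1 : FiniteDimensional F ((Coi F U).obj W) := hfd _ h
  have h2 : FiniteDimensional F
      ((forget₂ (Rep.{0} F U) (ModuleCat F)).obj ((Coi F U ⋙ Res F U).obj W)) := h1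
  have h3 : Function.Injective (((forget₂ (Rep.{0} F U) (ModuleCat F)).map (supp U W)).hom) := by
    apply (ModuleCat.mono_iff_injective _).1
    have : Mono (supp U W) := by
      have h4 : Mono (supp U W ≫ (counitNat U).app W) := by rw [supp_counit]; infer_instance
      exact mono_of_mono _ ((counitNat U).app W)
    infer_instance
  exact Module.Finite.of_injective
    (((forget₂ (Rep.{0} F U) (ModuleCat F)).map (supp U W)).hom) h3

end Group

section Incl

variable {A : Type 1} [Category.{0} A] [Abelian A]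

/-- The natural map from `Ext^n(X, Y)` in the category `P` to `Ext^n(X, Y)` in the larger category
`Q` is bijective. -/
def ExtBijIncl (P Q : ObjectProperty A) [IsRepClass P] [IsRepClass Q] (h : ∀ V, P V → Q V)
    (X Y : P.FullSubcategory) (n : ℕ) : Prop :=
  let _ : HasExt.{1} P.FullSubcategory := HasExt.standard _
  let _ : HasExt.{1} Q.FullSubcategory := HasExt.standard _
  Function.Bijective (Ext.mapExactFunctor (incl P Q h) : Ext.{1} X Y n →
    Ext.{1} ((incl P Q h).obj X) ((incl P Q h).obj Y) n)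

/-- The natural map from `Ext^n(X, Y)` in the category `P` to `Ext^n(X, Y)` in the larger category
`Q` is injective. -/
def ExtInjIncl (P Q : ObjectProperty A) [IsRepClass P] [IsRepClass Q] (h : ∀ V, P V → Q V)
    (X Y : P.FullSubcategory) (n : ℕ) : Prop :=
  let _ : HasExt.{1} P.FullSubcategory := HasExt.standard _
  let _ : HasExt.{1} Q.FullSubcategory := HasExt.standard _
  Function.Injective (Ext.mapExactFunctor (incl P Q h) : Ext.{1} X Y n →
    Ext.{1} ((incl P Q h).obj X) ((incl P Q h).obj Y) n)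

variable (P Q : ObjectProperty A) [IsRepClass P] [IsRepClass Q] (h : ∀ V, P V → Q V)

theorem incl_inj (hc : ExtClosed P Q) (X Y : P.FullSubcategory) {n : ℕ} (hn : n ≤ 2) :
    ExtInjIncl P Q h X Y n := by
  let _ : HasExt.{1} P.FullSubcategory := HasExt.standard _
  let _ : HasExt.{1} Q.FullSubcategory := HasExt.standard _
  have key : Function.Injective (Ext.mapExactFunctor (incl P Q h) : Ext.{1} X Y n →
      Ext.{1} ((incl P Q h).obj X) ((incl P Q h).obj Y) n) :=
    (injective_iff_map_eq_zero ((incl P Q h).mapExtAddHom X Y n)).2 fun e he =>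
      inj_of_surj_lt (incl P Q h)
        (fun m X Y e hm => surj_le_one P Q h hc m X Y e (by omega)) e he
  exact key

theorem incl_bij (hc : ExtClosed P Q) (X Y : P.FullSubcategory) : ExtBijIncl P Q h X Y 1 := by
  let _ : HasExt.{1} P.FullSubcategory := HasExt.standard _
  let _ : HasExt.{1} Q.FullSubcategory := HasExt.standard _
  have key : Function.Bijective (Ext.mapExactFunctor (incl P Q h) : Ext.{1} X Y 1 →
      Ext.{1} ((incl P Q h).obj X) ((incl P Q h).obj Y) 1) :=
    ⟨incl_inj P Q h hc X Y one_le_two, fun e => surj_one_incl P Q h hc e⟩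
  exact key

include h in
theorem incl_vanish (hc : ExtClosed P Q) {n : ℕ} (hn : n ≤ 2)
    (hQ : ∀ X Y : Q.FullSubcategory, ExtVanish X Y n) :
    ∀ X Y : P.FullSubcategory, ExtVanish X Y n := by
  let _ : HasExt.{1} P.FullSubcategory := HasExt.standard _
  let _ : HasExt.{1} Q.FullSubcategory := HasExt.standard _
  intro X Y
  have key : ∀ e : Ext.{1} X Y n, e = 0 := fun e =>
    inj_of_surj_lt (incl P Q h)
      (fun m X Y e hm => surj_le_one P Q h hc m X Y e (by omega)) e
      (hQ ((incl P Q h).obj X) ((incl P Q h).obj Y) _)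
  exact key

end Incl

section Systems

variable {F : Type} [Field F] {G : Type} [Group G] {I : Type} {U : I → Subgroup G}

/-- For each member `cat i` of a system of categories of representations, a class `st i` of its
objects (the semistable ones), stable under subobjects, quotients, finite products and those
extensions which belong to `cat i`. -/
structure Semistable (R : RepSystem F U) where
  /-- the semistable representations of `U i` -/
  st : ∀ i : I, ObjectProperty (Rp F (U i))
  st_class : ∀ i, IsRepClass (st i)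
  st_le : ∀ i V, st i V → R.cat i V
  st_ext : ∀ (i : I) (T : ShortComplex (Rp F (U i))), T.ShortExact → st i T.X₁ → st i T.X₃ →
    R.cat i T.X₂ → st i T.X₂

attribute [instance] Semistable.st_class

/-- Each object of the category for `G` becomes semistable over some member of the family `𝓘`. -/
def Semistable.Reached {R : RepSystem F U} (s : Semistable R) (𝓘 : Set I) : Prop :=
  ∀ V, R.base V → ∃ i ∈ 𝓘, s.st i (restr (U i) V)

variable [CharZero F] [∀ i, (U i).FiniteIndex] {R : RepSystem F U} (s : Semistable R)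
  {𝓘 : Set I} (hs : s.Reached 𝓘)

include hs in
theorem sys_vanish {n : ℕ} (h : ∀ i ∈ 𝓘, ¬ ExtNonzero (s.st i) n) : ¬ ExtNonzero R.base n := by
  rintro ⟨X, Y, hXY⟩
  refine hXY (@base_vanish F _ G _ I U _ _ R.base R.cat R.base_class R.cat_class R.res R.ind
    s.st s.st_class s.st_le 𝓘 hs n (fun i hi X' Y' => ?_) X Y)
  by_contra hc
  exact h i hi ⟨X', Y', hc⟩

theorem sys_st {n : ℕ} (hn : n ≤ 2) (i : I) (h : ¬ ExtNonzero R.base n) :
    ¬ ExtNonzero (s.st i) n := by
  rintro ⟨X, Y, hXY⟩
  refine hXY (incl_vanish (s.st i) (R.cat i) (s.st_le i) (s.st_ext i) hn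
    (fun X' Y' => ?_) X Y)
  by_contra hc
  exact h ((sys_transfer R i n).1 ⟨X', Y', hc⟩)

include hs in
theorem sys_dim_le : dim R.base ≤ ⨆ i ∈ 𝓘, dim (s.st i) := by
  refine iSup₂_le fun n hn => ?_
  have h1 : ∃ i ∈ 𝓘, ExtNonzero (s.st i) n := by
    by_contra hc
    push Not at hc
    exact sys_vanish s hs hc hn
  obtain ⟨i, hi, h2⟩ := h1
  refine le_trans ?_ (le_iSup₂ (f := fun (i : I) (_ : i ∈ 𝓘) => dim (s.st i)) i hi)
  exact le_iSup₂ (f := fun (n : ℕ) (_ : ∃ X Y : (s.st i).FullSubcategory, ¬ ExtVanish X Y n) =>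
    (n : ℕ∞)) n h2

include hs in
theorem sys_one : dim R.base = 1 ↔
    (∃ i ∈ 𝓘, ExtNonzero (s.st i) 1) ∧ ∀ i ∈ 𝓘, ¬ ExtNonzero (s.st i) 2 := by
  have h0 : dim R.base = 1 ↔ ExtNonzero R.base 1 ∧ ¬ ExtNonzero R.base 2 := by
    unfold dim
    rw [cohDim_eq_one_iff]
    refine and_congr_right fun _ => ⟨fun h => ?_, fun h X Y => ?_⟩
    · rintro ⟨X, Y, hXY⟩
      exact hXY (h X Y)
    · by_contra hc
      exact h ⟨X, Y, hc⟩
  rw [h0]
  constructor
  · rintro ⟨h1, h2⟩
    refine ⟨?_, fun i _ => sys_st s le_rfl i h2⟩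
    by_contra hc
    push Not at hc
    exact sys_vanish s hs hc h1
  · rintro ⟨⟨i, hi, h1⟩, h2⟩
    refine ⟨?_, sys_vanish s hs h2⟩
    by_contra hc
    exact sys_st s one_le_two i hc h1

theorem st_simples (i : I) (h : ExtZeroOnSimples (s.st i) 2) : ¬ ExtNonzero (s.st i) 2 := by
  rintro ⟨X, Y, hXY⟩
  exact hXY (@rep_devissage F _ (U i) _ (s.st i) (s.st_class i)
    (fun V hV => finite_of_ind (U i) R.base R.base_fd V (R.ind i V (s.st_le i V hV))) 2 h X Y)

include hs in
theorem sys_one_simples : dim R.base = 1 ↔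
    (∃ i ∈ 𝓘, ExtNonzero (s.st i) 1) ∧ ∀ i ∈ 𝓘, ExtZeroOnSimples (s.st i) 2 := by
  rw [sys_one s hs]
  refine and_congr_right fun _ => ⟨fun h i hi X Y _ _ => ?_, fun h i hi => st_simples s i (h i hi)⟩
  by_contra hc
  exact h i hi ⟨X, Y, hc⟩

include hs in
theorem sys_one_dim : dim R.base = 1 ↔ ⨆ i ∈ 𝓘, dim (s.st i) = 1 := by
  have h0 : ∀ i, dim (s.st i) ≤ 1 ↔ ¬ ExtNonzero (s.st i) 2 := by
    intro i
    unfold dim
    rw [cohDim_le_one_iff]
    refine ⟨fun h => ?_, fun h X Y => ?_⟩
    · rintro ⟨X, Y, hXY⟩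
      exact hXY (h X Y)
    · by_contra hc
      exact h ⟨X, Y, hc⟩
  have h1 : ∀ i, ExtNonzero (s.st i) 1 → 1 ≤ dim (s.st i) := by
    intro i hi
    have h2 : ((1 : ℕ) : ℕ∞) ≤ dim (s.st i) :=
      le_iSup₂ (f := fun (n : ℕ) (_ : ∃ X Y : (s.st i).FullSubcategory, ¬ ExtVanish X Y n) =>
        (n : ℕ∞)) 1 hi
    exact_mod_cast h2
  have h2 : ∀ i, ¬ ExtNonzero (s.st i) 1 → dim (s.st i) ≤ 0 := by
    intro i hi
    refine iSup₂_le ?_
    rintro n ⟨X, Y, hn⟩
    rcases Nat.eq_zero_or_pos n with rfl | h3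
    · simp
    · refine absurd (extVanish_of_le h3 (fun X' Y' => ?_) X Y) hn
      by_contra hc
      exact hi ⟨X', Y', hc⟩
  rw [sys_one s hs]
  constructor
  · rintro ⟨⟨i, hi, h3⟩, h4⟩
    exact le_antisymm (iSup₂_le fun j hj => (h0 j).2 (h4 j hj))
      ((h1 i h3).trans (le_iSup₂ (f := fun (i : I) (_ : i ∈ 𝓘) => dim (s.st i)) i hi))
  · intro h
    refine ⟨?_, fun j hj => (h0 j).1 ?_⟩
    · by_contra hc
      push Not at hc
      have h3 : ⨆ i ∈ 𝓘, dim (s.st i) ≤ 0 := iSup₂_le fun j hj => h2 j (hc j hj)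
      rw [h] at h3
      exact absurd h3 (by norm_num)
    · rw [← h]
      exact le_iSup₂ (f := fun (i : I) (_ : i ∈ 𝓘) => dim (s.st i)) j hj

end Systems

end Pool.Agent.R911.Wu
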