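import Pool.Agent.R911.Wu.Inj

set_option autoImplicit false
set_option linter.unusedSectionVars false

/-!
# Comparison of `Ext¹` and `Ext²`
-/

universe v u

open CategoryTheory CategoryTheory.Limits CategoryTheory.Abelian
open Pool.Agent.R388.CD Pool.Agent.R911.Wt

namespace Pool.Agent.R911.Wu

variable {C : Type u} [Category.{v} C] [Abelian C] {w : Weights C} (S : PureClasses w)

section

variable [HasExt.{max u v} C] [HasExt.{max u v} S.graded.FullSubcategory]
    [PreservesFiniteLimits S.graded.ι] [PreservesFiniteColimits S.graded.ι]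

/-- Surjectivity on `Ext¹` if the weights drop. -/
lemma surj_one {a : ℤ} {X Y : S.graded.FullSubcategory} (hX : w.ge a X.obj)
    (hY : w.le (a - 1) Y.obj) (e : Ext.{max u v} X.obj Y.obj 1) :
    ∃ e' : Ext.{max u v} X Y 1, e'.mapExactFunctor S.graded.ι = e := by
  obtain ⟨F, i, p, h, hT, rfl⟩ := exists_shortExact e
  have hF : S.graded F := graded_of_shortExact S hT hY hX Y.property X.property
  obtain ⟨h', hT'⟩ := shortExact_lift S.graded (X₁ := Y) (X₂ := ⟨F, hF⟩) (X₃ := X)
    (S.graded.homMk i) (S.graded.homMk p) h hT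
  exact ⟨hT'.extClass, Ext.mapExactFunctor_extClass S.graded.ι hT'⟩

lemma map_sub' {n : ℕ} {X Y : S.graded.FullSubcategory} (e e' : Ext.{max u v} X Y n) :
    (e - e').mapExactFunctor S.graded.ι =
      (e.mapExactFunctor S.graded.ι - e'.mapExactFunctor S.graded.ι : Ext.{max u v} _ _ n) :=
  map_sub (S.graded.ι.mapExtAddHom X Y n) e e'

/-- Injectivity on `Ext²` for an object which is pure of weight `a`. -/
lemma inj_two_pure {a : ℤ} {X Y : S.graded.FullSubcategory} (hX : w.Pure a X.obj)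
    (hY : w.le (a - 1) Y.obj) (e : Ext.{max u v} X Y 2)
    (h : e.mapExactFunctor S.graded.ι = (0 : Ext.{max u v} X.obj Y.obj 2)) : e = 0 := by
  obtain ⟨K, hK, δ, e', rfl⟩ := exists_lower (w := gradedWeights S) (noPureExt_graded S)
    (a := a) (X := X) (Y := Y) hX.1 (n := 1) e
  obtain ⟨F, i, p, h0, hT, rfl⟩ := exists_shortExact e'
  have hT' := hT.map_of_exact S.graded.ι
  have hF : w.le (a - 1) F.obj := le_of_shortExact hT' hY hK
  have h1 : (δ.mapExactFunctor S.graded.ι : Ext.{max u v} X.obj K.obj 1).comp hT'.extClass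
      (rfl : 1 + 1 = 2) = 0 := by
    refine Eq.trans ?_ h
    refine Eq.trans ?_ (Ext.mapExactFunctor_comp S.graded.ι _ _ _).symm
    exact congrArg (fun t => Ext.comp (δ.mapExactFunctor S.graded.ι : Ext.{max u v} X.obj K.obj 1)
      t (rfl : 1 + 1 = 2)) (Ext.mapExactFunctor_extClass S.graded.ι hT).symm
  obtain ⟨α, hα⟩ := Ext.covariant_sequence_exact₃ X.obj hT'
    (δ.mapExactFunctor S.graded.ι : Ext.{max u v} X.obj K.obj 1) rfl h1
  obtain ⟨α', hα'⟩ := surj_one S (a := a) (X := X) (Y := F) hX.2 hF α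
  have h2 : α'.comp (Ext.mk₀ p) (add_zero 1) = δ := by
    have h3 : (α'.comp (Ext.mk₀ p) (add_zero 1) - δ).mapExactFunctor S.graded.ι =
        (0 : Ext.{max u v} X.obj K.obj 1) := by
      refine (map_sub' S _ _).trans ?_
      rw [sub_eq_zero]
      refine (Ext.mapExactFunctor_comp S.graded.ι _ _ _).trans ?_
      refine Eq.trans ?_ hα
      rw [hα']
      exact congrArg (fun t => Ext.comp α t (add_zero 1))
        (Ext.mapExactFunctor_mk₀ S.graded.ι p)
    exact sub_eq_zero.1 (inj_one S.graded _ h3)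
  rw [← h2]
  refine (Ext.comp_assoc_of_second_deg_zero _ _ _ _).trans ?_
  have h4 : (Ext.mk₀ p).comp hT.extClass (zero_add 1) = 0 := hT.comp_extClass
  rw [h4, Ext.comp_zero]

/-- Injectivity on `Ext²` if the weights drop. -/
theorem inj_two (k : ℕ) : ∀ {a : ℤ} {X Y : S.graded.FullSubcategory}, w.ge a X.obj →
    w.le (a + k) X.obj → w.le (a - 1) Y.obj → ∀ e : Ext.{max u v} X Y 2,
      e.mapExactFunctor S.graded.ι = (0 : Ext.{max u v} X.obj Y.obj 2) → e = 0 := by
  induction k with
  | zero =>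
    intro a X Y hX hX' hY e he
    exact inj_two_pure S ⟨by simpa using hX', hX⟩ hY e he
  | succ k ih =>
    intro a X Y hX hX' hY e he
    obtain ⟨A, B, i, p, h, hT, hA, hB⟩ := (gradedWeights S).exists_seq a X
    have hT' := hT.map_of_exact S.graded.ι
    have hi : Mono (S.graded.ι.map i) := hT'.mono_f
    have hp : Epi (S.graded.ι.map p) := hT'.epi_g
    have hA' : w.Pure a A.obj := ⟨hA, (w.ge a).prop_of_mono (S.graded.ι.map i) hX⟩
    have hB1 : w.ge (a + 1) B.obj := hB
    have hB2 : w.le (a + 1 + k) B.obj := by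
      have := (w.le _).prop_of_epi (S.graded.ι.map p) hX'
      have e1 : a + ((k + 1 : ℕ) : ℤ) = a + 1 + k := by push_cast; ring
      rwa [e1] at this
    -- restriction to `A`
    have h1 : (Ext.mk₀ i).comp e (zero_add 2) = 0 := by
      refine inj_two_pure S hA' hY _ ?_
      refine (Ext.mapExactFunctor_comp S.graded.ι _ _ _).trans ?_
      rw [he, Ext.comp_zero]
    obtain ⟨e₁, he₁⟩ := Ext.contravariant_sequence_exact₂ hT Y e h1
    have h2 : (Ext.mk₀ (S.graded.ι.map p)).comp
        (e₁.mapExactFunctor S.graded.ι : Ext.{max u v} B.obj Y.obj 2) (zero_add 2) = 0 := by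
      refine Eq.trans ?_ he
      rw [← he₁]
      refine Eq.trans ?_ (Ext.mapExactFunctor_comp S.graded.ι _ _ _).symm
      exact congrArg (fun t => Ext.comp t
        (e₁.mapExactFunctor S.graded.ι : Ext.{max u v} B.obj Y.obj 2) (zero_add 2))
        (Ext.mapExactFunctor_mk₀ S.graded.ι p).symm
    obtain ⟨c, hc⟩ := Ext.contravariant_sequence_exact₃ hT' Y.obj
      (e₁.mapExactFunctor S.graded.ι : Ext.{max u v} B.obj Y.obj 2) h2 (rfl : 1 + 1 = 2)
    obtain ⟨c', hc'⟩ := surj_one S (X := A) (Y := Y) hA'.2 hY c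
    have h3 : e₁ - hT.extClass.comp c' (rfl : 1 + 1 = 2) = 0 := by
      refine ih (a := a + 1) (X := B) (Y := Y) hB1 hB2
        (by rw [add_sub_cancel_right]; exact w.le_trans' (by omega) hY) _ ?_
      refine (map_sub' S _ _).trans ?_
      rw [sub_eq_zero, ← hc, ← hc']
      refine Eq.trans ?_ (Ext.mapExactFunctor_comp S.graded.ι _ _ _).symm
      exact congrArg (fun t => Ext.comp t (c'.mapExactFunctor S.graded.ι :
        Ext.{max u v} A.obj Y.obj 1) (rfl : 1 + 1 = 2))
        (Ext.mapExactFunctor_extClass S.graded.ι hT).symm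
    rw [sub_eq_zero] at h3
    rw [← he₁, h3]
    refine (Ext.comp_assoc _ _ _ (zero_add 1) (rfl : 1 + 1 = 2) (rfl)).symm.trans ?_
    have h4 : (Ext.mk₀ p).comp hT.extClass (zero_add 1) = 0 := hT.comp_extClass
    rw [h4, Ext.zero_comp]

end

end Pool.Agent.R911.Wu
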